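import Pool.Agent.H436.CB.ProdSA

/-!
# The semialgebraic form of Mazur's conjecture for conic bundles with at most eight degenerate
# fibres in each variable, and for their fibre products (helper436)

Let `A_1, …, A_r` and `B_1, …, B_r` be polynomials in `z = (z_1, …, z_n)` over `ℚ`. We consider the
variety `X` of dimension `n + r` with the equations

  `x_i² - A_i(z) y_i² = B_i(z)`, `i = 1, …, r`.

We suppose that for all `i` and `j` the variable `z_j` does not occur in both `A_i` and `B_i`. Let
`d_ij` be its degree in the other one. Our only other hypothesis is that for each `j` the sum over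
`i` of the numbers `d_ij / 2`, rounded up, is at most four, and that at most three of the `d_ij` are
not zero. So over the line of the variable `z_j` there are at most eight degenerate fibres. There is
no hypothesis on the singularities.

(1) There is a polynomial `N ≠ 0` such that the closure in `X(ℝ)` of the set of the rational points
with `N(z) ≠ 0` is semialgebraic over `ℚ`, and such that each connected subset of `X(ℝ)` outside of
the divisor `N = 0` which meets the closure of `X(ℚ)` is contained in it. (Mazur's conjecture in its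
original form, outside of the divisor.)

(2) If for each `i` one of `A_i` and `B_i` is a constant and the other one is a product of
polynomials in one variable each, then the closure of the set of ALL rational points is
semialgebraic over `ℚ`.

So (2) answers the question for these affine varieties. They include:

* for `n = 1` the surfaces `x² - a y² = f(t)` and `x² - f(t) y² = a` with `deg f ≤ 8`, and the
  threefolds and fourfolds which are fibre products of two such surfaces with degrees `(6, 2)` or
  `(4, 4)` or of three with degrees `(4, 2, 2)`, over the `t`-line;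
* for all `n` the varieties `x² - a y² = f_1(z_1) ⋯ f_n(z_n)` of dimension `n + 1` with
  `deg f_j ≤ 8`, and the systems of two or three such equations with the above degrees in each
  variable, such as the fivefolds `x_1² - a_1 y_1² = f_1(s) g_1(t) h_1(u)`,
  `x_2² - a_2 y_2² = f_2(s) g_2(t) h_2(u)` with polynomials of degree at most four;
* (closing up) the compact models of these varieties in bundles of planes over `(ℙ¹)ⁿ`, given by
  `x_i² - a_i y_i² = f_i(z) w_i²`: they are covered by affine charts (`w_i ≠ 0` or `y_i ≠ 0`, and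
  `z_j` or `1 / z_j` as the coordinate), which are again varieties as in (2).

The proof of the local statement is explained in the file
`Results/MP_12adaf_nt/FibreProductsOfConicBundles.lean`, whose theorem concerns finite sets of places
with at least one `p`-adic place. Here we need the real place alone. There the curves of genus one
used in the proof have infinitely many rational points by the `2`-adic argument, for a dense set of
the real parameters, and so their rational points are dense in the neighbourhoods of the base point.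
The closure of `X(ℚ)` is then open and closed in `X(ℝ)` outside of the divisor, so semialgebraic over
`ℚ` by a theorem of the starting library. In (2) the divisor is a union of hyperplanes `z_j = ρ`,
over which the same equations appear with fewer variables, and we use induction.
-/

set_option autoImplicit false

namespace Pool.Agent.Results.MP_42de19_nt.ConicBundlesEightFibres

open MvPolynomial Pool.Agent.H436.CB
open Pool.Agent.TH729.SQ (SA.frozen rl aeval_cast)
open Pool.Agent.H581R2 (SA SA.preimage)

/-- Semialgebraic sets defined over `ℚ`: the finite unions of sets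
`{p = 0, q₁ > 0, …, q_k > 0}`, where `p` and the `qᵢ` are polynomials with rational
coefficients. -/
def Semialgebraic {ι : Type} (S : Set (ι → ℝ)) : Prop :=
  ∃ (m : ℕ) (P : Fin m → MvPolynomial ι ℚ) (G : Fin m → Finset (MvPolynomial ι ℚ)),
    S = {x : ι → ℝ | ∃ j : Fin m, (aeval x (P j) : ℝ) = 0 ∧ ∀ g ∈ G j, (0 : ℝ) < aeval x g}

/-- The rational points of the variety `x_i² - A_i(z) y_i² = B_i(z)`, `i < r`. The coordinates of
the point `u` are `z_j = u (inl j)`, `x_i = u (inr (inl i))` and `y_i = u (inr (inr i))`. -/
def ratPoints {n r : ℕ} (A B : Fin r → MvPolynomial (Fin n) ℚ) :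
    Set (Fin n ⊕ (Fin r ⊕ Fin r) → ℚ) :=
  {u | ∀ i, u (.inr (.inl i)) ^ 2 - eval (fun j => u (.inl j)) (A i) * u (.inr (.inr i)) ^ 2 =
    eval (fun j => u (.inl j)) (B i)}

/-- The real points of this variety. -/
def realPoints {n r : ℕ} (A B : Fin r → MvPolynomial (Fin n) ℚ) :
    Set (Fin n ⊕ (Fin r ⊕ Fin r) → ℝ) :=
  {x | ∀ i, x (.inr (.inl i)) ^ 2 - aeval (fun j => x (.inl j)) (A i) * x (.inr (.inr i)) ^ 2 =
    aeval (fun j => x (.inl j)) (B i)}

/-- The closure, in the real affine space, of a set of rational points. -/
def realClosure {ι : Type} (D : Set (ι → ℚ)) : Set (ι → ℝ) :=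
  closure {x : ι → ℝ | ∃ u ∈ D, x = fun k => (u k : ℝ)}

/-- The degree `d_ij`: if `z_j` does not occur in one of `A_i`, `B_i`, this is its degree in the
other one. -/
noncomputable def deg {n r : ℕ} (A B : Fin r → MvPolynomial (Fin n) ℚ) (i : Fin r) (j : Fin n) :
    ℕ :=
  (A i).degreeOf j + (B i).degreeOf j

/-- `f` is a constant times a product of polynomials in one variable each. -/
def Separated {n : ℕ} (f : MvPolynomial (Fin n) ℚ) : Prop :=
  ∃ (c : ℚ) (g : Fin n → Polynomial ℚ), f = C c * ∏ j, Polynomial.aeval (X j) (g j)

lemma frozen_of_SA {ι : Type} [Finite ι] {S : Set (ι → ℝ)} (h : SA S) : Semialgebraic S := by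
  obtain ⟨k, ⟨e⟩⟩ := Finite.exists_equiv_fin ι
  have h1 : SA {x : Fin k → ℝ | (fun i => x (e i)) ∈ S} :=
    SA.preimage (S := S) (φ := fun (x : Fin k → ℝ) i => x (e i)) h
      (fun i => Pool.Agent.H581R2.PF.coord (e i))
  obtain ⟨m, P, G, hS⟩ := SA.frozen h1
  classical
  refine ⟨m, fun j => rename e.symm (P j), fun j => (G j).image (rename e.symm), ?_⟩
  have key : ∀ (x : ι → ℝ) (p : MvPolynomial (Fin k) ℚ),
      (aeval x (rename e.symm p) : ℝ) = aeval (fun a => x (e.symm a)) p := by
    intro x p
    rw [aeval_rename]
    rfl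
  ext x
  have h2 : x ∈ S ↔ (fun a => x (e.symm a)) ∈ {x : Fin k → ℝ | (fun i => x (e i)) ∈ S} := by
    rw [Set.mem_ofPred_eq]
    simp only [Equiv.symm_apply_apply]
  rw [h2, hS, Set.mem_ofPred_eq, Set.mem_ofPred_eq]
  simp only [key, Finset.mem_image, forall_exists_index, and_imp, forall_apply_eq_imp_iff₂]

lemma natDegree_le_deg {n : ℕ} {c : ℚ} (hc : c ≠ 0) {g : Fin n → Polynomial ℚ}
    (hg : ∀ j, g j ≠ 0) (j : Fin n) :
    (g j).natDegree ≤ (C c * ∏ j, Polynomial.aeval (X j) (g j)).degreeOf j := by
  have h1 : (g j).natDegree ≤ (Polynomial.aeval (X j : MvPolynomial (Fin n) ℚ) (g j)).degreeOf j := by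
    have h2 := Pool.Agent.Y720.MZ.deg_rst
      (A := Polynomial.aeval (X j : MvPolynomial (Fin n) ℚ) (g j)) (j := j) le_rfl 0
    have h3 : Pool.Agent.Y720.MZ.rst (Polynomial.aeval (X j : MvPolynomial (Fin n) ℚ) (g j)) 0
        (Pi.single j 1) = g j := by
      apply Polynomial.funext
      intro s
      rw [Pool.Agent.Y720.MZ.rst_eval, eval_aeval_X]
      simp
    rwa [h3] at h2
  rw [degreeOf_mul_eq (by rwa [Ne, C_eq_zero]) (Finset.prod_ne_zero_iff.2 fun k _ =>
    aeval_X_ne (hg k)), degreeOf_prod_eq _ _ fun k _ => aeval_X_ne (hg k)]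
  refine h1.trans (le_trans ?_ (Nat.le_add_left _ _))
  exact Finset.single_le_sum (f := fun k =>
    (Polynomial.aeval (X k : MvPolynomial (Fin n) ℚ) (g k)).degreeOf j) (fun k _ => Nat.zero_le _)
    (Finset.mem_univ j)

lemma sep_ne {n : ℕ} {f : MvPolynomial (Fin n) ℚ} (hf : f ≠ 0) {c : ℚ} {g : Fin n → Polynomial ℚ}
    (h : f = C c * ∏ j, Polynomial.aeval (X j) (g j)) : c ≠ 0 ∧ ∀ j, g j ≠ 0 := by
  constructor
  · rintro rfl
    apply hf
    rw [h, C_0, zero_mul]
  · intro j hj
    apply hf
    rw [h, Finset.prod_eq_zero (Finset.mem_univ j), mul_zero]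
    rw [hj, map_zero]

/-- **The semialgebraic form of Mazur's conjecture for tame systems of conic bundles.** -/
theorem result :
    ∀ (n r : ℕ) (A B : Fin r → MvPolynomial (Fin n) ℚ),
      -- the generic fibres are smooth conics
      (∀ i, A i ≠ 0 ∧ B i ≠ 0) →
      -- no variable occurs in both coefficients
      (∀ i j, (A i).degreeOf j = 0 ∨ (B i).degreeOf j = 0) →
      -- in each variable there are at most eight degenerate fibres, and the type is
      -- not `(2, 2, 2, 2)`
      (∀ j, ∑ i, (deg A B i j + 1) / 2 ≤ 4 ∧
        (Finset.univ.filter fun i => deg A B i j ≠ 0).card ≤ 3) →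
      -- (1) outside of a divisor
      (∃ N : MvPolynomial (Fin n) ℚ, N ≠ 0 ∧
        Semialgebraic (realClosure {u ∈ ratPoints A B | eval (fun j => u (.inl j)) N ≠ 0}) ∧
        ∀ S : Set (Fin n ⊕ (Fin r ⊕ Fin r) → ℝ), IsPreconnected S →
          S ⊆ {x ∈ realPoints A B | (aeval (fun j => x (.inl j)) N : ℝ) ≠ 0} →
          (S ∩ realClosure (ratPoints A B)).Nonempty → S ⊆ realClosure (ratPoints A B)) ∧
      -- (2) all rational points, if the coefficients are separated
      ((∀ i, ((∃ a, A i = C a) ∧ Separated (B i)) ∨ (Separated (A i) ∧ ∃ b, B i = C b)) →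
        Semialgebraic (realClosure (ratPoints A B))) := by
  intro n r A B hAB hc hT
  refine ⟨?_, fun hsep => ?_⟩
  · obtain ⟨N, hN, h⟩ := main_int (A := A) (B := B) (fun i => (hAB i).1) (fun i => (hAB i).2) hc hT
    have hgood : GoodN A B N := fun z₀ hz => h Unit (fun _ => ℝ) sR M8_real dn_sR z₀ hz
    refine ⟨N, hN, frozen_of_SA (gpts_SA hgood), ?_⟩
    rintro S hS hSX ⟨x, hxS, hx⟩
    exact conn_of_good hgood hS (fun y hy => hSX hy) hxS hx
  · -- the data of the two kinds
    have hdata : ∀ i, ∃ (κ : Bool) (k c : ℚ) (g : Fin n → Polynomial ℚ), k ≠ 0 ∧ (∀ j, g j ≠ 0) ∧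
        A i = (if κ then C k else C c * ∏ j, Polynomial.aeval (X j) (g j)) ∧
        B i = (if κ then C c * ∏ j, Polynomial.aeval (X j) (g j) else C k) ∧
        ∀ j, (g j).natDegree ≤ deg A B i j := by
      intro i
      rcases hsep i with ⟨⟨a, ha⟩, c, g, hg⟩ | ⟨⟨c, g, hg⟩, b, hb⟩
      · obtain ⟨h1, h2⟩ := sep_ne (hAB i).2 hg
        refine ⟨true, a, c, g, ?_, h2, by rw [if_pos rfl]; exact ha,
          by rw [if_pos rfl]; exact hg, fun j => ?_⟩
        · rintro rfl
          apply (hAB i).1
          rw [ha, C_0]
        · refine (natDegree_le_deg h1 h2 j).trans ?_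
          rw [← hg, deg]
          exact Nat.le_add_left _ _
      · obtain ⟨h1, h2⟩ := sep_ne (hAB i).1 hg
        refine ⟨false, b, c, g, ?_, h2, by rw [if_neg (by decide)]; exact hg,
          by rw [if_neg (by decide)]; exact hb, fun j => ?_⟩
        · rintro rfl
          apply (hAB i).2
          rw [hb, C_0]
        · refine (natDegree_le_deg h1 h2 j).trans ?_
          rw [← hg, deg]
          exact Nat.le_add_right _ _
    choose κ k c g h1 h2 h3 h4 h5 using hdata
    have hA : A = PA κ k c g := funext h3
    have hB : B = PB κ k c g := funext h4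
    have key := prod_SA _ (Fin n) (Fin r) κ k c g rfl h1 h2 fun j =>
      Tame.mono (d := fun i => deg A B i j) (hT j) fun i => h5 i j
    rw [← hA, ← hB] at key
    exact frozen_of_SA key

end Pool.Agent.Results.MP_42de19_nt.ConicBundlesEightFibres
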